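import Mathlib
import Pool.Agent.Lib.lead.MTL

set_option autoImplicit false

namespace Pool.Agent.Results.MP_6be952_lc.Continuum

open Pool.Agent.Lib.MTL Filter

/-! ### Ordered abelian groups -/

lemma order_quot (A : Type) [AddCommGroup A] (P : Set A) (h0 : (0 : A) ∈ P)
    (hadd : ∀ p ∈ P, ∀ q ∈ P, p + q ∈ P) (tot : ∀ p, p ∈ P ∨ -p ∈ P) :
    ∃ (K : Type) (_ : AddCommGroup K) (_ : LinearOrder K) (_ : IsOrderedAddMonoid K)
      (ρ : A →+ K), ∀ p, 0 ≤ ρ p ↔ p ∈ P := by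
  classical
  let N : AddSubgroup A :=
    { carrier := {p | p ∈ P ∧ -p ∈ P}
      add_mem' := fun {a b} ha hb =>
        ⟨hadd _ ha.1 _ hb.1, by rw [neg_add]; exact hadd _ ha.2 _ hb.2⟩
      zero_mem' := ⟨h0, by rwa [neg_zero]⟩
      neg_mem' := fun {a} ha => ⟨ha.2, by rw [neg_neg]; exact ha.1⟩ }
  let ρ : A →+ A ⧸ N := QuotientAddGroup.mk' N
  have hρ : ∀ p, ρ p = 0 ↔ p ∈ N := fun p => QuotientAddGroup.eq_zero_iff p
  let o : LinearOrder (A ⧸ N) :=
    { le := fun x y => ∃ p ∈ P, ρ p = y - x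
      le_refl := fun x => ⟨0, h0, by simp⟩
      le_trans := by
        rintro x y z ⟨p, hp, e⟩ ⟨q, hq, f⟩
        exact ⟨p + q, hadd _ hp _ hq, by rw [map_add, e, f]; abel⟩
      le_antisymm := by
        rintro x y ⟨p, hp, e⟩ ⟨q, hq, f⟩
        have : p + q ∈ N := (hρ _).1 (by rw [map_add, e, f]; abel)
        have h2 : ρ q = 0 := (hρ _).2 ⟨hq, by
          have := hadd _ this.2 _ hp
          convert this using 1
          abel⟩
        rwa [h2, eq_comm, sub_eq_zero] at f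
      le_total := by
        intro x y
        obtain ⟨p, hp⟩ := QuotientAddGroup.mk'_surjective N (y - x)
        rcases tot p with h | h
        · exact Or.inl ⟨p, h, hp⟩
        · exact Or.inr ⟨-p, h, by rw [map_neg]; show -(QuotientAddGroup.mk' N p) = _; rw [hp]; abel⟩
      toDecidableLE := Classical.decRel _ }
  refine ⟨A ⧸ N, inferInstance, o, ?_, ρ, fun p => ⟨?_, fun h => ⟨p, h, by simp⟩⟩⟩
  · refine { add_le_add_left := ?_ }
    rintro x y ⟨p, hp, e⟩ z
    exact ⟨p, hp, by rw [e]; abel⟩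
  · rintro ⟨q, hq, e⟩
    have : p - q ∈ N := (hρ _).1 (by rw [map_sub, e]; abel)
    have := hadd _ this.1 _ hq
    rwa [sub_add_cancel] at this

section grp
variable {G H : Type} [AddCommGroup G] [LinearOrder G] [IsOrderedAddMonoid G]
  [AddCommGroup H] [LinearOrder H] [IsOrderedAddMonoid H]

lemma ord_amalg (B : AddSubgroup (G × H)) (hB : ∀ β ∈ B, 0 ≤ β.1 ↔ 0 ≤ β.2) :
    ∃ (K : Type) (_ : AddCommGroup K) (_ : LinearOrder K) (_ : IsOrderedAddMonoid K)
      (l : G →+ K) (m : H →+ K), (∀ g, 0 ≤ l g ↔ 0 ≤ g) ∧ (∀ h, 0 ≤ m h ↔ 0 ≤ h) ∧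
      ∀ β ∈ B, l β.1 = m β.2 := by
  let P0 : Set (G × H) := {p | ∃ β ∈ B, β.1 ≤ p.1 ∧ -β.2 ≤ p.2}
  let S : Set (Set (G × H)) := {P | (∀ p ∈ P, ∀ q ∈ P, p + q ∈ P) ∧ P0 ⊆ P ∧
    ∀ p ∈ P, p.1 ≤ 0 → p.2 ≤ 0 → p = 0}
  have h0 : P0 ∈ S := by
    refine ⟨?_, le_rfl, ?_⟩
    · rintro p ⟨β, hβ, e1, e2⟩ q ⟨γ, hγ, f1, f2⟩
      exact ⟨β + γ, B.add_mem hβ hγ, add_le_add e1 f1, by
        rw [Prod.snd_add, neg_add]; exact add_le_add e2 f2⟩
    · rintro p ⟨β, hβ, e1, e2⟩ h1 h2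
      have a := hB β hβ
      have b := hB (-β) (B.neg_mem hβ)
      simp only [Prod.fst_neg, Prod.snd_neg] at b
      ext
      · simp only [Prod.fst_zero]; grind
      · simp only [Prod.snd_zero]; grind
  obtain ⟨P, -, hP⟩ := zorn_subset_nonempty S (fun c hc hch hne => by
    refine ⟨⋃₀ c, ⟨?_, ?_, ?_⟩, fun s hs => Set.subset_sUnion_of_mem hs⟩
    · rintro p ⟨s, hs, hp⟩ q ⟨t, ht, hq⟩
      rcases hch.total hs ht with h | h
      · exact ⟨t, ht, (hc ht).1 _ (h hp) _ hq⟩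
      · exact ⟨s, hs, (hc hs).1 _ hp _ (h hq)⟩
    · obtain ⟨s, hs⟩ := hne
      exact (hc hs).2.1.trans (Set.subset_sUnion_of_mem hs)
    · rintro p ⟨s, hs, hp⟩
      exact (hc hs).2.2 p hp) P0 h0
  obtain ⟨hadd, hsub, hav⟩ := hP.prop
  have hz : (0 : G × H) ∈ P := hsub ⟨0, B.zero_mem, by simp, by simp⟩
  have hn : ∀ p ∈ P, ∀ n : ℕ, n • p ∈ P := by
    intro p hp n
    induction n with
    | zero => simpa using hz
    | succ n ih => rw [succ_nsmul]; exact hadd _ ih _ hp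
  have key : ∀ p, p ∉ P → ∃ x ∈ P, ∃ n : ℕ, ∃ q : G × H, q = x + (n + 1) • p ∧ q.1 ≤ 0 ∧
      q.2 ≤ 0 ∧ q ≠ 0 := by
    intro p hp
    by_contra hc
    push Not at hc
    have hs : P ⊆ {q | ∃ x ∈ P, ∃ n : ℕ, q = x + n • p} := fun x hx => ⟨x, hx, 0, by simp⟩
    refine hp (hP.le_of_ge (y := {q | ∃ x ∈ P, ∃ n : ℕ, q = x + n • p})
      ⟨?_, hsub.trans hs, ?_⟩ hs ⟨0, hz, 1, by simp⟩)
    · rintro _ ⟨x, hx, n, rfl⟩ _ ⟨y, hy, m, rfl⟩
      exact ⟨x + y, hadd _ hx _ hy, n + m, by rw [add_smul]; abel⟩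
    · rintro q ⟨x, hx, n, e⟩
      cases n with
      | zero =>
        rw [zero_smul, add_zero] at e
        rw [e]
        exact hav x hx
      | succ n => exact hc x hx n q e
  have tot : ∀ p, p ∈ P ∨ -p ∈ P := by
    intro p
    by_contra hc
    push Not at hc
    obtain ⟨x, hx, n, q, e, q1, q2, q0⟩ := key _ hc.1
    obtain ⟨y, hy, m, r, f, r1, r2, -⟩ := key _ hc.2
    have e' : (m + 1) • x + (n + 1) • y = (m + 1) • q + (n + 1) • r := by
      rw [e, f, smul_add, smul_add, smul_neg, smul_neg, smul_comm (m + 1) (n + 1) p]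
      abel
    have a1 := nsmul_nonpos q1 m
    have a2 := nsmul_nonpos q2 m
    have b1 := nsmul_nonpos r1 (n + 1)
    have b2 := nsmul_nonpos r2 (n + 1)
    have := hav _ (hadd _ (hn x hx (m + 1)) _ (hn y hy (n + 1)))
    rw [e', succ_nsmul] at this
    simp only [Prod.ext_iff, Prod.fst_add, Prod.snd_add, Prod.smul_fst, Prod.smul_snd,
      Prod.fst_zero, Prod.snd_zero, ne_eq] at this q0
    generalize m • q.1 = c1 at *
    generalize m • q.2 = c2 at *
    generalize (n + 1) • r.1 = d1 at *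
    generalize (n + 1) • r.2 = d2 at *
    grind
  obtain ⟨K, _, _, _, ρ, hρ⟩ := order_quot (G × H) P hz hadd tot
  refine ⟨K, inferInstance, inferInstance, inferInstance, ρ.comp (AddMonoidHom.inl G H),
    ρ.comp (AddMonoidHom.inr G H), fun g => ?_, fun h => ?_, fun β hβ => ?_⟩
  · show 0 ≤ ρ (g, 0) ↔ _
    rw [hρ]
    refine ⟨fun hg => ?_, fun hg => hsub ⟨0, B.zero_mem, hg, by simp⟩⟩
    by_contra hc
    have := hav _ hg (le_of_not_ge hc) le_rfl
    exact hc (congrArg Prod.fst this).ge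
  · show 0 ≤ ρ (0, h) ↔ _
    rw [hρ]
    refine ⟨fun hg => ?_, fun hg => hsub ⟨0, B.zero_mem, le_rfl, by simpa using hg⟩⟩
    by_contra hc
    have := hav _ hg le_rfl (le_of_not_ge hc)
    exact hc (congrArg Prod.snd this).ge
  · show ρ (β.1, 0) = ρ (0, β.2)
    have a := (hρ ((β.1, 0) - (0, β.2))).2 (hsub ⟨β, hβ, by simp, by simp⟩)
    have b := (hρ ((0, β.2) - (β.1, 0))).2 (hsub ⟨-β, B.neg_mem hβ, by simp, by simp⟩)
    rw [map_sub, sub_nonneg] at a b
    exact le_antisymm b a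

/-! ### Raw evaluation -/

def In (u a x : G) : Prop := x = 0 ∨ (a ≤ x ∧ x ≤ u)

def rim (a x y : G) : G := if y ≤ x then 0 else max a (y - x)

def ev (u a : G) (v : ℕ → G) : Fm → G
  | .var n => v n
  | .and φ ψ => max (ev u a v φ) (ev u a v ψ)
  | .or φ ψ => min (ev u a v φ) (ev u a v ψ)
  | .mul φ ψ => min u (ev u a v φ + ev u a v ψ)
  | .imp φ ψ => rim a (ev u a v φ) (ev u a v ψ)
  | .e => 0
  | .f => u

lemma ev_map (l : G →+ H) (hl : ∀ g, 0 ≤ l g ↔ 0 ≤ g) (u a : G) (v : ℕ → G) (V : ℕ → H) (φ : Fm)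
    (hv : ∀ n ∈ φ.vars, V n = l (v n)) : ev (l u) (l a) V φ = l (ev u a v φ) := by
  have hle : ∀ x y, l x ≤ l y ↔ x ≤ y := fun x y => by
    rw [← sub_nonneg, ← map_sub, hl, sub_nonneg]
  induction φ with
  | var n => exact hv n rfl
  | e => exact (map_zero l).symm
  | f => rfl
  | _ φ ψ h1 h2 =>
    simp only [ev, h1 fun n hn => hv n (Or.inl hn), h2 fun n hn => hv n (Or.inr hn), rim,
      max_def, min_def, ← map_add, ← map_sub, hle, apply_ite l, map_zero]

structure Good (u a : G) (u' a' : H) (R : G → H → Prop) : Prop where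
  h3 : a + a + a < u
  h4 : u < a + a + a + a
  h3' : a' + a' + a' < u'
  h4' : u' < a' + a' + a' + a'
  i : ∀ {x y}, R x y → In u a x ∧ In u' a' y
  le : ∀ {x y z w}, R x y → R z w → (x ≤ z ↔ y ≤ w)
  mul : ∀ {x y z w}, R x y → R z w → R (min u (x + z)) (min u' (y + w))
  imp : ∀ {x y z w}, R x y → R z w → R (rim a x z) (rim a' y w)
  top : R u u'
  zero : R 0 0

variable {u a : G} {u' a' : H} {R : G → H → Prop}

lemma Good.symm (h : Good u a u' a' R) : Good u' a' u a (flip R) :=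
  ⟨h.h3', h.h4', h.h3, h.h4, fun r => (h.i r).symm, fun r s => (h.le r s).symm,
    fun r s => h.mul r s, fun r s => h.imp r s, h.top, h.zero⟩

lemma Good.coat (h : Good u a u' a' R) {y : H} (r : R a y) : y = a' := by
  have r3 := h.mul (h.mul r r) r
  have t := h.imp r3 h.top
  have e1 := h.le t r
  have e2 := h.le r t
  have e3 := h.le h.top r3
  have e4 := h.le r h.zero
  have e5 := (h.i r).2
  have := h.h3
  have := h.h4
  have := h.h3'
  have := h.h4'
  unfold rim In at *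
  grind

lemma sgn' (β s : G) (k : ℤ) (hβ : 0 < β) (h0 : 0 ≤ s) (h1 : s ≤ β) :
    0 ≤ s + k • β ↔ 0 ≤ k ∨ (k = -1 ∧ β ≤ s) := by
  rcases le_or_gt 0 k with hk | hk
  · have : 0 ≤ k • β := by positivity
    grind
  · obtain ⟨j, rfl⟩ : ∃ j : ℤ, k = -1 - j := ⟨-1 - k, by ring⟩
    rw [sub_smul, neg_smul, one_smul]
    rcases (show 0 ≤ j by omega).eq_or_lt with rfl | hj
    · rw [zero_smul]; grind
    · have : 0 < j • β := by positivity
      generalize j • β = c at *
      grind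

def D (u a : G) (u' a' : H) (R : G → H → Prop) (s : G) (s' : H) : Prop :=
  R (a + s) (a' + s') ∧ 0 ≤ s ∧ s ≤ u - a - a ∧ 0 ≤ s' ∧ s' ≤ u' - a' - a'

lemma rim_neg (h3 : a + a + a < u) (h4 : u < a + a + a + a) {s : G} (h0 : 0 ≤ s)
    (h1 : s ≤ u - a - a) : rim a (a + s) u = a + (u - a - a - s) := by
  unfold rim; grind

lemma rim_add (h3 : a + a + a < u) (h4 : u < a + a + a + a) {s t : G} (h0 : 0 ≤ s) (h1 : 0 ≤ t)
    (h2 : s + t ≤ u - a - a) : rim a a (min u (a + s + (a + t))) = a + (s + t) := by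
  unfold rim; grind

lemma rim_big (h3 : a + a + a < u) (h4 : u < a + a + a + a) {x : G}
    (h2 : ¬ x ≤ a + (u - a - a)) : rim a a x = a + (x - a - a) := by
  unfold rim; grind

lemma Good.Dneg (h : Good u a u' a' R) {s : G} {s' : H} (d : D u a u' a' R s s') :
    D u a u' a' R (u - a - a - s) (u' - a' - a' - s') := by
  obtain ⟨r1, c1, c2, c3, c4⟩ := d
  refine ⟨?_, by grind, by grind, by grind, by grind⟩
  have := h.imp r1 h.top
  rwa [rim_neg h.h3 h.h4 c1 c2, rim_neg h.h3' h.h4' c3 c4] at this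

lemma Good.Dadd (h : Good u a u' a' R) (r : R a a') {s t : G} {s' t' : H}
    (d1 : D u a u' a' R s s') (d2 : D u a u' a' R t t') (hst : s + t ≤ u - a - a) :
    D u a u' a' R (s + t) (s' + t') := by
  have e := h.le d2.1 (h.Dneg d1).1
  obtain ⟨r1, c1, c2, c3, c4⟩ := d1
  obtain ⟨r2, c5, c6, c7, c8⟩ := d2
  have hst' : s' + t' ≤ u' - a' - a' := by grind
  refine ⟨?_, add_nonneg c1 c5, hst, add_nonneg c3 c7, hst'⟩
  have := h.imp r (h.mul r1 r2)
  rwa [rim_add h.h3 h.h4 c1 c5 hst, rim_add h.h3' h.h4' c3 c7 hst'] at this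

lemma Good.D0 (h : Good u a u' a' R) (r : R a a') : D u a u' a' R 0 0 := by
  have := h.h3
  have := h.h4
  have := h.h3'
  have := h.h4'
  exact ⟨by simpa using r, le_rfl, by grind, le_rfl, by grind⟩

lemma Good.Db (h : Good u a u' a' R) (r : R a a') :
    D u a u' a' R (u - a - a) (u' - a' - a') := by simpa using h.Dneg (h.D0 r)

lemma Good.Da (h : Good u a u' a' R) (r : R a a') : D u a u' a' R a a' := by
  have := h.h3
  have := h.h4
  have := h.h3'
  have := h.h4'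
  refine ⟨?_, by grind, by grind, by grind, by grind⟩
  have := h.mul r r
  rwa [min_eq_right (by grind), min_eq_right (by grind)] at this

lemma Good.Dx (h : Good u a u' a' R) (r : R a a') {x : G} {y : H} (rx : R x y) :
    (x = 0 ∧ y = 0) ∨ D u a u' a' R (x - a) (y - a') ∨
      D u a u' a' R (x - a - a) (y - a' - a') := by
  have := h.h3
  have := h.h4
  have := h.h3'
  have := h.h4'
  have e1 := h.le rx h.zero
  have e2 := h.le rx (h.Db r).1
  obtain ⟨i1, i2⟩ := h.i rx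
  unfold In at i1 i2
  by_cases h0 : x = 0
  · exact Or.inl ⟨h0, by grind⟩
  by_cases h1 : x ≤ a + (u - a - a)
  · exact Or.inr (Or.inl ⟨by simpa using rx, by grind, by grind, by grind, by grind⟩)
  · refine Or.inr (Or.inr ⟨?_, by grind, by grind, by grind, by grind⟩)
    have := h.imp r rx
    rwa [rim_big h.h3 h.h4 h1, rim_big h.h3' h.h4' (mt e2.2 h1)] at this

lemma Good.sgn (h : Good u a u' a' R) (r : R a a') {s : G} {s' : H} (d : D u a u' a' R s s')
    (k : ℤ) : 0 ≤ s + k • (u - a - a) ↔ 0 ≤ s' + k • (u' - a' - a') := by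
  have := h.h3
  have := h.h4
  have := h.h3'
  have := h.h4'
  have e := h.le (h.Db r).1 d.1
  rw [add_le_add_iff_left, add_le_add_iff_left] at e
  rw [sgn' _ s k (by grind) d.2.1 d.2.2.1, sgn' _ s' k (by grind) d.2.2.2.1 d.2.2.2.2, e]

lemma Good.case1 (h : Good u a u' a' R) (r : R a a') : ∃ B : AddSubgroup (G × H),
    (∀ β ∈ B, 0 ≤ β.1 ↔ 0 ≤ β.2) ∧ (∀ x y, R x y → (x, y) ∈ B) := by
  let B : AddSubgroup (G × H) :=
    { carrier := {p | ∃ s s', ∃ k : ℤ, D u a u' a' R s s' ∧ p.1 = s + k • (u - a - a) ∧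
        p.2 = s' + k • (u' - a' - a')}
      zero_mem' := ⟨0, 0, 0, h.D0 r, by simp, by simp⟩
      neg_mem' := by
        rintro p ⟨s, s', k, d, e1, e2⟩
        refine ⟨_, _, -k - 1, h.Dneg d, ?_, ?_⟩
        · rw [Prod.fst_neg, e1, sub_smul, neg_smul, one_smul]; abel
        · rw [Prod.snd_neg, e2, sub_smul, neg_smul, one_smul]; abel
      add_mem' := by
        rintro p q ⟨s, s', k, d, e1, e2⟩ ⟨t, t', j, d', f1, f2⟩
        rcases le_total (s + t) (u - a - a) with hst | hst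
        · refine ⟨_, _, k + j, h.Dadd r d d' hst, ?_, ?_⟩
          · rw [Prod.fst_add, e1, f1, add_smul]; abel
          · rw [Prod.snd_add, e2, f2, add_smul]; abel
        · refine ⟨_, _, k + j + 1, h.Dneg (h.Dadd r (h.Dneg d) (h.Dneg d')
            (by clear e1 e2 f1 f2; grind)), ?_, ?_⟩
          · rw [Prod.fst_add, e1, f1, add_smul, add_smul, one_smul]; abel
          · rw [Prod.snd_add, e2, f2, add_smul, add_smul, one_smul]; abel }
  have mem : ∀ {s s'}, D u a u' a' R s s' → (s, s') ∈ B :=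
    fun d => ⟨_, _, 0, d, by simp, by simp⟩
  have ha : (a, a') ∈ B := mem (h.Da r)
  refine ⟨B, ?_, ?_⟩
  · rintro β ⟨s, s', k, d, e1, e2⟩
    rw [e1, e2]
    exact h.sgn r d k
  · intro x y rx
    rcases h.Dx r rx with ⟨rfl, rfl⟩ | d | d
    · exact B.zero_mem
    · simpa using B.add_mem (mem d) ha
    · simpa using B.add_mem (B.add_mem (mem d) ha) ha

lemma Good.third (h : Good u a u' a' R) (hn : ∀ x y, R x y → x ≠ a) {x : G} {y : H} (r : R x y)
    (hx : x + x < u) : x = 0 ∨ x + x + x = u := by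
  have := h.h3
  have := h.h4
  have t := h.imp (h.mul r r) h.top
  have e0 := (h.i r).1
  have e1 := hn _ _ r
  have e2 := hn _ _ t
  have e3 := hn _ _ (h.imp r t)
  have e4 := hn _ _ (h.imp t r)
  unfold rim In at *
  grind

lemma Good.case2 (h : Good u a u' a' R) (hn : ∀ x y, R x y → x ≠ a)
    (hn' : ∀ y x, R x y → y ≠ a') {x : G} {y : H} (r : R x y) :
    ∃ k : ℤ, (6 : ℤ) • x = k • u ∧ (6 : ℤ) • y = k • u' := by
  have := h.h3
  have := h.h4
  have := h.h3'
  have := h.h4'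
  have t := h.imp r h.top
  obtain ⟨i1, i2⟩ := h.i r
  have e1 := hn _ _ t
  have e2 := hn' _ _ t
  have e3 := h.le r h.zero
  have e4 := h.le h.top r
  have ex : rim a x u = u - x := by unfold rim In at *; grind
  have ey : rim a' y u' = u' - y := by unfold rim In at *; grind
  rw [ex, ey] at t
  have e5 := h.le r t
  have e6 := h.le t r
  have c1 := h.third hn r
  have c2 := h.symm.third hn' (x := y) (y := x) r
  have c3 := h.third hn t
  have c4 := h.symm.third hn' (x := u' - y) (y := u - x) t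
  clear ex ey e1 e2
  unfold In at *
  rcases lt_trichotomy (x + x) u with hx | hx | hx
  · by_cases h0 : x = 0
    · exact ⟨0, by grind, by grind⟩
    · exact ⟨2, by grind, by grind⟩
  · exact ⟨3, by grind, by grind⟩
  · by_cases h0 : x = u
    · exact ⟨6, by grind, by grind⟩
    · exact ⟨4, by grind, by grind⟩

def Cls (α : ℝ) (u a : G) : Prop := ∀ p q : ℤ, 0 < p * α + q → 0 < p • a + q • u

lemma cls_sign {α : ℝ} (hα : Irrational α) (h : Cls α u a) (p q : ℤ) :
    0 ≤ p • a + q • u ↔ 0 ≤ p * α + q := by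
  rcases lt_trichotomy 0 (p * α + q) with e | e | e
  · exact iff_of_true (h p q e).le e.le
  · have hp : p = 0 := by
      by_contra hp
      exact ((hα.intCast_mul hp).add_intCast q).ne_zero e.symm
    subst hp
    have hq : q = 0 := by simpa using e.symm
    subst hq
    simp
  · have := h (-p) (-q) (by push_cast; linarith)
    rw [neg_smul, neg_smul, ← neg_add, neg_pos] at this
    exact iff_of_false (not_le.2 this) (not_le.2 e)

lemma Good.sub (h : Good u a u' a' R) {α : ℝ} (hα : Irrational α) (c : Cls α u a)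
    (c' : Cls α u' a') : ∃ B : AddSubgroup (G × H),
    (∀ β ∈ B, 0 ≤ β.1 ↔ 0 ≤ β.2) ∧ (a, a') ∈ B ∧ (∀ x y, R x y → (x, y) ∈ B) := by
  by_cases r : R a a'
  · obtain ⟨B, h1, h2⟩ := h.case1 r
    exact ⟨B, h1, h2 _ _ r, h2⟩
  have hn : ∀ x y, R x y → x ≠ a := by
    rintro x y s rfl
    exact r (h.coat s ▸ s)
  have hn' : ∀ y x, R x y → y ≠ a' := by
    rintro y x s rfl
    have := h.symm.coat (y := x) s
    exact r (this ▸ s)
  let B : AddSubgroup (G × H) :=
    { carrier := {β | ∃ p q : ℤ, (6 : ℤ) • β.1 = p • a + q • u ∧ (6 : ℤ) • β.2 = p • a' + q • u'}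
      zero_mem' := ⟨0, 0, by simp, by simp⟩
      neg_mem' := by
        rintro β ⟨p, q, e1, e2⟩
        refine ⟨-p, -q, ?_, ?_⟩
        · rw [Prod.fst_neg, smul_neg, e1, neg_smul, neg_smul, neg_add]
        · rw [Prod.snd_neg, smul_neg, e2, neg_smul, neg_smul, neg_add]
      add_mem' := by
        rintro β γ ⟨p, q, e1, e2⟩ ⟨p', q', f1, f2⟩
        refine ⟨p + p', q + q', ?_, ?_⟩
        · rw [Prod.fst_add, smul_add, e1, f1, add_smul, add_smul]; abel
        · rw [Prod.snd_add, smul_add, e2, f2, add_smul, add_smul]; abel }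
  refine ⟨B, ?_, ⟨6, 0, by simp, by simp⟩, fun x y s => ?_⟩
  · rintro β ⟨p, q, e1, e2⟩
    have e := (cls_sign hα c p q).trans (cls_sign hα c' p q).symm
    rw [← e1, ← e2] at e
    grind
  · obtain ⟨k, e1, e2⟩ := h.case2 hn hn' s
    exact ⟨0, k, by simpa using e1, by simpa using e2⟩

end grp

/-! ### The chains -/

structure Par : Type 1 where
  G : Type
  g : AddCommGroup G
  o : LinearOrder G
  i : IsOrderedAddMonoid G
  u : G
  a : G
  h3 : a + a + a < u
  h4 : u < a + a + a + a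

instance (P : Par) : AddCommGroup P.G := P.g
instance (P : Par) : LinearOrder P.G := P.o
instance (P : Par) : IsOrderedAddMonoid P.G := P.i

def X (P : Par) : Type := {x : P.G // In P.u P.a x}

section
variable {G : Type} [AddCommGroup G] [LinearOrder G] [IsOrderedAddMonoid G] {u a : G}
  (h3 : a + a + a < u) (h4 : u < a + a + a + a)
include h3 h4

lemma in_mul {x y : G} (hx : In u a x) (hy : In u a y) : In u a (min u (x + y)) := by
  unfold In at *; grind

lemma in_imp {x y : G} (hx : In u a x) (hy : In u a y) : In u a (rim a x y) := by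
  unfold In rim at *; grind

lemma in_top : In u a u := by unfold In; grind

lemma r_assoc {x y z : G} (hx : In u a x) (hz : In u a z) :
    min u (min u (x + y) + z) = min u (x + min u (y + z)) := by
  unfold In at *; grind

lemma r_one {x : G} (hx : In u a x) : min u (0 + x) = x := by unfold In at *; grind

lemma r_res {x y z : G} (hy : In u a y) (hz : In u a z) :
    z ≤ min u (x + y) ↔ rim a x z ≤ y := by
  unfold In rim at *; grind

lemma r_bd {x : G} (hx : In u a x) : 0 ≤ x ∧ x ≤ u := by unfold In at *; grind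

lemma r_pre (x y : G) : min (rim a x y) (rim a y x) = 0 := by unfold rim; grind

lemma r_nil {x : G} (hx : In u a x) : u ≤ min u (min u (x + x) + min u (x + x)) ↔ x ≠ 0 := by
  unfold In at *; grind

lemma r_imp (x y : G) : rim a x y = 0 ↔ y ≤ x := by unfold rim; grind

end

noncomputable instance (P : Par) : LinearOrder (X P) :=
  LinearOrder.lift' (fun x : X P => OrderDual.toDual x.1) (fun _ _ h => Subtype.ext h)

lemma le_def {P : Par} (x y : X P) : x ≤ y ↔ y.1 ≤ x.1 := Iff.rfl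

lemma sup_val {P : Par} (x y : X P) : (x ⊔ y).1 = min x.1 y.1 := by
  rcases le_total x y with h | h
  · rw [sup_of_le_right h]; exact (min_eq_right ((le_def _ _).1 h)).symm
  · rw [sup_of_le_left h]; exact (min_eq_left ((le_def _ _).1 h)).symm

lemma inf_val {P : Par} (x y : X P) : (x ⊓ y).1 = max x.1 y.1 := by
  rcases le_total x y with h | h
  · rw [inf_of_le_left h]; exact (max_eq_left ((le_def _ _).1 h)).symm
  · rw [inf_of_le_right h]; exact (max_eq_right ((le_def _ _).1 h)).symm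

instance (P : Par) : Mul (X P) := ⟨fun x y => ⟨min P.u (x.1 + y.1), in_mul P.h3 P.h4 x.2 y.2⟩⟩
instance (P : Par) : One (X P) := ⟨⟨0, Or.inl rfl⟩⟩

noncomputable instance (P : Par) : MTL (X P) where
  toLattice := inferInstance
  mul_assoc x y z := Subtype.ext (r_assoc P.h3 P.h4 x.2 z.2)
  one_mul x := Subtype.ext (r_one P.h3 P.h4 x.2)
  mul_one x := Subtype.ext (by
    show min P.u (x.1 + 0) = x.1
    rw [add_comm]
    exact r_one P.h3 P.h4 x.2)
  mul_comm x y := Subtype.ext (by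
    show min P.u (x.1 + y.1) = min P.u (y.1 + x.1)
    rw [add_comm])
  imp x y := ⟨rim P.a x.1 y.1, in_imp P.h3 P.h4 x.2 y.2⟩
  f := ⟨P.u, in_top P.h3 P.h4⟩
  res x y z := r_res P.h3 P.h4 y.2 z.2
  le_one x := (r_bd P.h3 P.h4 x.2).1
  f_le x := (r_bd P.h3 P.h4 x.2).2
  prelin x y := Subtype.ext ((sup_val _ _).trans (r_pre P.h3 P.h4 x.1 y.1))

lemma ev_eq {P : Par} (v : ℕ → X P) (φ : Fm) :
    (φ.eval v).1 = ev P.u P.a (fun n => (v n).1) φ := by
  induction φ with
  | var n => rfl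
  | and φ ψ h1 h2 => rw [ev, ← h1, ← h2]; exact inf_val _ _
  | or φ ψ h1 h2 => rw [ev, ← h1, ← h2]; exact sup_val _ _
  | mul φ ψ h1 h2 => rw [ev, ← h1, ← h2]; rfl
  | imp φ ψ h1 h2 => rw [ev, ← h1, ← h2]; rfl
  | e => rfl
  | f => rfl

lemma ev_one {P : Par} (v : ℕ → X P) (φ : Fm) :
    φ.eval v = 1 ↔ ev P.u P.a (fun n => (v n).1) φ = 0 := by
  rw [← ev_eq]
  exact Subtype.ext_iff

lemma x_nil (P : Par) (x : X P) : x * x * (x * x) ≤ MTL.f ↔ x ≠ 1 :=
  (r_nil P.h3 P.h4 x.2).trans (not_congr ⟨fun h => Subtype.ext h, fun h => congrArg Subtype.val h⟩)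

lemma good {P Q : Par} (v : ℕ → X P) (w : ℕ → X Q) (Z : Set ℕ)
    (hd : ∀ θ : Fm, θ.vars ⊆ Z → (θ.eval v = 1 ↔ θ.eval w = 1)) :
    Good P.u P.a Q.u Q.a
      (fun x y => ∃ θ : Fm, θ.vars ⊆ Z ∧ (θ.eval v).1 = x ∧ (θ.eval w).1 = y) where
  h3 := P.h3
  h4 := P.h4
  h3' := Q.h3
  h4' := Q.h4
  i := by
    rintro x y ⟨θ, -, rfl, rfl⟩
    exact ⟨(θ.eval v).2, (θ.eval w).2⟩
  le := by
    rintro x y z t ⟨θ, h, rfl, rfl⟩ ⟨η, h', rfl, rfl⟩
    exact (imp_eq_one _ _).symm.trans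
      ((hd (.imp η θ) (Set.union_subset h' h)).trans (imp_eq_one _ _))
  mul := by
    rintro x y z t ⟨θ, h, rfl, rfl⟩ ⟨η, h', rfl, rfl⟩
    exact ⟨.mul θ η, Set.union_subset h h', rfl, rfl⟩
  imp := by
    rintro x y z t ⟨θ, h, rfl, rfl⟩ ⟨η, h', rfl, rfl⟩
    exact ⟨.imp θ η, Set.union_subset h h', rfl, rfl⟩
  top := ⟨.f, Set.empty_subset _, rfl, rfl⟩
  zero := ⟨.e, Set.empty_subset _, rfl, rfl⟩

def Mod (α : ℝ) : Type 1 := {P : Par // Cls α P.u P.a}

abbrev car (α : ℝ) : Mod α → Type := fun m => X m.1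

lemma nil (α : ℝ) : Nil (car α) := fun m x => x_nil m.1 x

lemma in_map {G K : Type} [AddCommGroup G] [LinearOrder G] [IsOrderedAddMonoid G]
    [AddCommGroup K] [LinearOrder K] [IsOrderedAddMonoid K] (l : G →+ K)
    (hl : ∀ g, 0 ≤ l g ↔ 0 ≤ g) {u a x : G} (h : In u a x) : In (l u) (l a) (l x) := by
  have hle : ∀ x y, l x ≤ l y ↔ x ≤ y := fun x y => by
    rw [← sub_nonneg, ← map_sub, hl, sub_nonneg]
  rcases h with rfl | h
  · exact Or.inl (map_zero l)
  · exact Or.inr ⟨(hle _ _).2 h.1, (hle _ _).2 h.2⟩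

lemma amal {α : ℝ} (hα : Irrational α) : Amal (car α) := by
  classical
  rintro ⟨P, hP⟩ ⟨Q, hQ⟩ v w X' Y hd
  obtain ⟨B, hB, ha, hR⟩ := (good v w _ hd).sub hα hP hQ
  obtain ⟨K, iK, oK, jK, l, m, hl, hm, e⟩ := ord_amalg B hB
  have eu : l P.u = m Q.u := e _ (hR _ _ (good v w _ hd).top)
  have ea : l P.a = m Q.a := e _ ha
  have hlt : ∀ x y, x < y → l x < l y := fun x y h => by
    rw [← not_le, ← sub_nonneg, ← map_sub, hl, sub_nonneg, not_le]
    exact h
  have l0 : ∀ x, l x = 0 ↔ x = 0 := fun x => by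
    rw [le_antisymm_iff, le_antisymm_iff, hl, ← neg_nonneg, ← map_neg, hl, neg_nonneg]
  have m0 : ∀ x, m x = 0 ↔ x = 0 := fun x => by
    rw [le_antisymm_iff, le_antisymm_iff, hm, ← neg_nonneg, ← map_neg, hm, neg_nonneg]
  let T : Par := ⟨K, iK, oK, jK, l P.u, l P.a, by simpa only [map_add] using hlt _ _ P.h3,
    by simpa only [map_add] using hlt _ _ P.h4⟩
  have hT : Cls α T.u T.a := fun p q h => by
    simpa only [map_add, map_zsmul, map_zero] using hlt _ _ (hP p q h)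
  let V : ℕ → X T := fun n => if n ∈ X' then ⟨l (v n).1, in_map l hl (v n).2⟩ else
    ⟨m (w n).1, by
      show In (l P.u) (l P.a) _
      rw [eu, ea]
      exact in_map m hm (w n).2⟩
  refine ⟨⟨T, hT⟩, V, fun θ hθ => ?_, fun θ hθ => ?_⟩
  · rw [ev_one, ev_one, ← l0, ← ev_map l hl _ _ _ (fun n => (V n).1) θ]
    intro n hn
    simp only [V, if_pos (hθ hn)]
  · rw [ev_one, ev_one, ← m0, ← ev_map m hm _ _ _ (fun n => (V n).1) θ, ← eu, ← ea]
    intro n hn
    simp only [V]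
    split_ifs with hx
    · exact e _ (hR _ _ ⟨.var n, by simpa [Fm.vars] using ⟨hx, hθ hn⟩, rfl, rfl⟩)
    · rfl

lemma ev_lim {I : Type} (U : Ultrafilter I) {G : I → Type} [∀ i, AddCommGroup (G i)]
    [∀ i, LinearOrder (G i)] [∀ i, IsOrderedAddMonoid (G i)] {K : Type} [AddCommGroup K]
    [LinearOrder K] [IsOrderedAddMonoid K] (ρ : (∀ i, G i) →+ K)
    (hle : ∀ f g, ρ f ≤ ρ g ↔ ∀ᶠ i in U, f i ≤ g i) (u a : ∀ i, G i) (v : ∀ i, ℕ → G i) (φ : Fm) :
    ev (ρ u) (ρ a) (fun n => ρ fun i => v i n) φ = ρ fun i => ev (u i) (a i) (v i) φ := by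
  have heq : ∀ f g, (∀ᶠ i in U, f i = g i) → ρ f = ρ g := fun f g h =>
    le_antisymm ((hle _ _).2 (h.mono fun i hi => hi.le)) ((hle _ _).2 (h.mono fun i hi => hi.ge))
  have hite : ∀ f g p q : ∀ i, G i, (if ρ f ≤ ρ g then ρ p else ρ q) =
      ρ fun i => if f i ≤ g i then p i else q i := by
    intro f g p q
    split_ifs with h
    · exact heq _ _ (((hle _ _).1 h).mono fun i hi => (if_pos hi).symm)
    · exact heq _ _ ((Ultrafilter.eventually_not.2 (mt (hle _ _).2 h)).mono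
        fun i hi => (if_neg hi).symm)
  induction φ with
  | var n => rfl
  | e => exact (map_zero ρ).symm
  | f => rfl
  | and φ ψ h1 h2 => simp only [ev, h1, h2, max_def, hite]
  | or φ ψ h1 h2 => simp only [ev, h1, h2, min_def, hite]
  | mul φ ψ h1 h2 => simp only [ev, h1, h2, min_def, ← map_add, hite, Pi.add_apply]
  | imp φ ψ h1 h2 =>
    simp only [ev, h1, h2, rim, max_def, ← map_sub, hite, Pi.sub_apply]
    rw [← map_zero ρ, hite]
    rfl

lemma cpt (α : ℝ) : Cpt (car α) := by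
  classical
  intro Γ h
  choose m v hv using fun F : Finset Fm =>
    h (F.filter (· ∈ Γ)) (fun x hx => (Finset.mem_filter.1 hx).2)
  let U : Ultrafilter (Finset Fm) := Ultrafilter.of atTop
  obtain ⟨K, iK, oK, jK, ρ, hρ⟩ := order_quot (∀ i, (m i).1.G)
    {g | ∀ᶠ i in (U : Filter (Finset Fm)), 0 ≤ g i} (Eventually.of_forall fun _ => le_rfl)
    (fun p hp q hq => by
      filter_upwards [hp, hq] with i h1 h2
      exact add_nonneg h1 h2)
    (fun p => Ultrafilter.eventually_or.1 (Eventually.of_forall fun i => by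
      rcases le_total 0 (p i) with h | h
      · exact Or.inl h
      · exact Or.inr (neg_nonneg.2 h)))
  have hle : ∀ f g, ρ f ≤ ρ g ↔ ∀ᶠ i in (U : Filter (Finset Fm)), f i ≤ g i := fun f g => by
    rw [← sub_nonneg, ← map_sub, hρ]
    simp only [Set.mem_setOf_eq, Pi.sub_apply, sub_nonneg]
  have hlt : ∀ f g, (∀ i, f i < g i) → ρ f < ρ g := fun f g h => by
    rw [← not_le, hle]
    intro h'
    obtain ⟨i, hi⟩ := h'.exists
    exact absurd hi (not_le.2 (h i))
  have h0 : ∀ f, (∀ᶠ i in (U : Filter (Finset Fm)), f i = 0) → ρ f = 0 := fun f h => by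
    rw [← map_zero ρ]
    exact le_antisymm ((hle _ _).2 (h.mono fun i hi => hi.le))
      ((hle _ _).2 (h.mono fun i hi => hi.ge))
  let T : Par := ⟨K, iK, oK, jK, ρ fun i => (m i).1.u, ρ fun i => (m i).1.a,
    by simp only [← map_add]; exact hlt _ _ fun i => (m i).1.h3,
    by simp only [← map_add]; exact hlt _ _ fun i => (m i).1.h4⟩
  have hT : Cls α T.u T.a := fun p q h => by
    have := hlt 0 (p • (fun i => (m i).1.a) + q • fun i => (m i).1.u) fun i => (m i).2 p q h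
    simpa only [map_add, map_zsmul, map_zero] using this
  let V : ℕ → X T := fun n => ⟨ρ fun i => (v i n).1, by
    rcases Ultrafilter.eventually_or.1 (Eventually.of_forall (f := U) fun i => (v i n).2) with
      h | h
    · exact Or.inl (h0 _ h)
    · exact Or.inr ⟨(hle _ _).2 (h.mono fun i hi => hi.1), (hle _ _).2 (h.mono fun i hi => hi.2)⟩⟩
  refine ⟨⟨T, hT⟩, V, fun γ hγ => (ev_one V γ).2 ?_⟩
  refine (ev_lim U ρ hle _ _ (fun i n => (v i n).1) γ).trans (h0 _ ?_)
  have : ∀ᶠ (i : Finset Fm) in (U : Filter (Finset Fm)), ({γ} : Finset Fm) ≤ i :=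
    Ultrafilter.of_le atTop (eventually_ge_atTop _)
  filter_upwards [this] with i hi
  exact (ev_one _ γ).1 (hv i γ (by simpa [hγ] using hi))

lemma eq_of_sign {α β : ℝ} (h : ∀ p q : ℤ, 0 ≤ p * α + q ↔ 0 ≤ p * β + q) : α = β := by
  have key : ∀ {α β : ℝ}, (∀ p q : ℤ, 0 ≤ p * β + q → 0 ≤ p * α + q) → β ≤ α := by
    intro α β h
    by_contra hc
    obtain ⟨r, h1, h2⟩ := exists_rat_btwn (not_le.1 hc)
    have hd : (0 : ℝ) < r.den := by exact_mod_cast r.den_pos
    rw [Rat.cast_def, lt_div_iff₀ hd] at h1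
    rw [Rat.cast_def, div_lt_iff₀ hd] at h2
    have := h r.den (-r.num) (by push_cast; linarith)
    push_cast at this
    linarith
  exact le_antisymm (key fun p q => (h p q).1) (key fun p q => (h p q).2)

lemma distinct {α β : ℝ} (hα : Irrational α) (h1 : 1 / 4 < β) (h2 : β < 1 / 3)
    (h : Ext (Ax (car α)) = Ext (Ax (car β))) : α = β := by
  let Q : Par := ⟨ℝ, inferInstance, inferInstance, inferInstance, 1, β, by linarith, by linarith⟩
  have hQ : Cls β Q.u Q.a := fun p q h => by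
    show (0 : ℝ) < p • β + q • (1 : ℝ)
    simpa using h
  let w : ℕ → X Q := fun _ => ⟨β, Or.inr ⟨le_rfl, show β ≤ (1 : ℝ) by linarith⟩⟩
  obtain ⟨⟨P, hP⟩, v, -, hd⟩ := diag (nil α) (cpt α) ∅ Set.univ (x_nil Q) w (fun π _ hπ => by
    rw [← ext_iff (nil α) (cpt α), h, ext_iff (nil β) (cpt β)] at hπ
    exact hπ ⟨Q, hQ⟩ w (by simp))
  have g := good v w _ hd
  have r : ∃ θ : Fm, θ.vars ⊆ Set.univ ∧ (θ.eval v).1 = (v 0).1 ∧ (θ.eval w).1 = Q.a :=
    ⟨.var 0, Set.subset_univ _, rfl, rfl⟩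
  have e : (v 0).1 = P.a := g.symm.coat r
  rw [e] at r
  obtain ⟨B, hB, hR⟩ := g.case1 r
  refine eq_of_sign fun p q => ?_
  have := hB _ (B.add_mem (B.zsmul_mem (hR _ _ r) p) (B.zsmul_mem (hR _ _ g.top) q))
  refine (cls_sign hα hP p q).symm.trans (this.trans ?_)
  show (0 : ℝ) ≤ p • β + q • (1 : ℝ) ↔ _
  simp

theorem result : ¬ ExtDIP.Countable ∧ Cardinal.continuum ≤ Cardinal.mk ExtDIP := by
  let T : Set ℝ := {α | Irrational α ∧ 1 / 4 < α ∧ α < 1 / 3}
  let F : T → ExtDIP := fun α =>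
    ⟨Ext (Ax (car α.1)), mem_extDIP (nil _) (cpt _) (amal α.2.1)⟩
  have hF : Function.Injective F := fun α β h =>
    Subtype.ext (distinct α.2.1 β.2.2.1 β.2.2.2 (congrArg Subtype.val h))
  have hT : Cardinal.continuum ≤ Cardinal.mk T := by
    by_contra hc
    have hs : Set.Ioo (1 / 4 : ℝ) (1 / 3) ⊆ T ∪ Set.range ((↑) : ℚ → ℝ) := fun x hx => by
      by_cases hi : Irrational x
      · exact Or.inl ⟨hi, hx⟩
      · exact Or.inr (not_not.1 hi)
    have h1 := (Cardinal.mk_le_mk_of_subset hs).trans (Cardinal.mk_union_le _ _)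
    rw [Cardinal.mk_Ioo_real (by norm_num)] at h1
    refine absurd h1 (not_le.2 (Cardinal.add_lt_of_lt Cardinal.aleph0_le_continuum
      (not_le.1 hc) ?_))
    exact (Cardinal.le_aleph0_iff_set_countable.2 (Set.countable_range _)).trans_lt
      Cardinal.aleph0_lt_continuum
  have hc := hT.trans (Cardinal.mk_le_of_injective hF)
  refine ⟨fun h => ?_, hc⟩
  rw [← Cardinal.le_aleph0_iff_set_countable] at h
  exact absurd (hc.trans h) (not_le.2 Cardinal.aleph0_lt_continuum)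

end Pool.Agent.Results.MP_6be952_lc.Continuum
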